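import Pool.Agent.Run7.h420.TM.Stm

/-! Project TM (helper420): piece FIB. -/

set_option autoImplicit false

namespace Pool.Agent.Run7.h420.TM

open MeasureTheory Filter Topology Set

theorem t_FIB : S_POS → S_ERG → S_FIB := by
  intro hPOS hERG G Z X L _ _ _ _ _ _ _ _ ζ μ h a b hζ hμ hmix hh hab
  have hm1 : Measurable fun q : Z × (X × X) => (q.1, q.2.1) := by fun_prop
  have hm2 : Measurable fun q : Z × (X × X) => (q.1, q.2.2) := by fun_prop
  have hA : MeasurableSet {q : Z × (X × X) | h (q.1, q.2.1) = h (q.1, q.2.2)} := by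
    have h1 : {q : Z × (X × X) | h (q.1, q.2.1) = h (q.1, q.2.2)} =
        ⋃ l : L, {q : Z × (X × X) | h (q.1, q.2.1) = l ∧ h (q.1, q.2.2) = l} := by
      ext q
      simp only [mem_ofPred_eq, mem_iUnion]
      constructor
      · intro hq
        exact ⟨_, rfl, hq.symm⟩
      · rintro ⟨l, h1, h2⟩
        rw [h1, h2]
    rw [h1]
    exact MeasurableSet.iUnion fun l => (hm1 (hh l)).inter (hm2 (hh l))
  have hp1 : MeasurePreserving (fun q : Z × (X × X) => (q.1, q.2.1)) (ζ.prod (μ.prod μ))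
      (ζ.prod μ) := (MeasurePreserving.id ζ).prod measurePreserving_fst
  have hp2 : MeasurePreserving (fun q : Z × (X × X) => (q.1, q.2.2)) (ζ.prod (μ.prod μ))
      (ζ.prod μ) := (MeasurePreserving.id ζ).prod measurePreserving_snd
  have hinv : ∀ g ∈ (univ : Set G), ∀ᵐ q ∂(ζ.prod (μ.prod μ)),
      (g • q ∈ {q : Z × (X × X) | h (q.1, q.2.1) = h (q.1, q.2.2)} ↔
        q ∈ {q : Z × (X × X) | h (q.1, q.2.1) = h (q.1, q.2.2)}) := by
    intro g _
    have e1 := hp1.quasiMeasurePreserving.ae (hab g)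
    have e2 := hp2.quasiMeasurePreserving.ae (hab g)
    filter_upwards [e1, e2] with q h1 h2
    have h1' : h ((g • q).1, (g • q).2.1) = a g q.1 * h (q.1, q.2.1) * b g q.1 := h1
    have h2' : h ((g • q).1, (g • q).2.2) = a g q.1 * h (q.1, q.2.2) * b g q.1 := h2
    show h ((g • q).1, (g • q).2.1) = h ((g • q).1, (g • q).2.2) ↔
      h (q.1, q.2.1) = h (q.1, q.2.2)
    rw [h1', h2', mul_left_inj, mul_right_inj]
  rcases hERG G (Z × (X × X)) (ζ.prod (μ.prod μ)) univ _ hmix infinite_univ hA hinv with h0 | h1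
  · exact absurd h0 (hPOS Z X L ζ μ h hζ hμ hh)
  · have := (mem_ae_iff_prob_eq_one hA).2 h1
    exact this

end Pool.Agent.Run7.h420.TM
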