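import Pool.Agent.Run7.h420.TM.Stm

/-! Project TM (helper420): piece POS. -/

set_option autoImplicit false

namespace Pool.Agent.Run7.h420.TM

open MeasureTheory Filter Topology Set

theorem t_POS : S_POS := by
  intro Z X L _ _ _ ζ μ h hζ hμ hh h0
  have key : ∀ l : L, (ζ.prod μ) {p | h p = l} = 0 := by
    intro l
    have hm : MeasurableSet {q : Z × (X × X) | h (q.1, q.2.1) = l ∧ h (q.1, q.2.2) = l} := by
      have h1 : Measurable fun q : Z × (X × X) => (q.1, q.2.1) := by fun_prop
      have h2 : Measurable fun q : Z × (X × X) => (q.1, q.2.2) := by fun_prop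
      exact (h1 (hh l)).inter (h2 (hh l))
    have h1 : (ζ.prod (μ.prod μ))
        {q : Z × (X × X) | h (q.1, q.2.1) = l ∧ h (q.1, q.2.2) = l} = 0 :=
      measure_mono_null (fun q hq => hq.1.trans hq.2.symm) h0
    rw [Measure.measure_prod_null hm] at h1
    rw [Measure.measure_prod_null (hh l)]
    filter_upwards [h1] with z hz
    have h2 : (Prod.mk z ⁻¹' {q : Z × (X × X) | h (q.1, q.2.1) = l ∧ h (q.1, q.2.2) = l}) =
      (Prod.mk z ⁻¹' {p | h p = l}) ×ˢ (Prod.mk z ⁻¹' {p | h p = l}) := rfl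
    rw [h2, Measure.prod_prod] at hz
    simpa using hz
  have h2 : (ζ.prod μ) (⋃ l : L, {p | h p = l}) = 0 := measure_iUnion_null key
  have h3 : (⋃ l : L, {p : Z × X | h p = l}) = univ := by
    ext p
    simp
  rw [h3, measure_univ] at h2
  exact one_ne_zero h2

end Pool.Agent.Run7.h420.TM
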