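import Pool.Agent.Run7.h420.TM.Stm

/-! Project TM (helper420): piece SPLIT. -/

set_option autoImplicit false

namespace Pool.Agent.Run7.h420.TM

open MeasureTheory Filter Topology Set

theorem t_SPLIT : S_FIB → S_MIXPROD → S_SPLIT := by
  intro hFIB hMP G X L _ _ _ _ _ _ μ w φ hmix hw hφ hφw
  have := hmix.prob
  have hm1 : Measurable fun q : (X × X) × X => (q.1.2, q.2) := by fun_prop
  have hm2 : Measurable fun q : (X × X) × X => (q.1.1, q.2) := by fun_prop
  have hCM : CM (fun q : (X × X) × X => (φ (q.1.2, q.2))⁻¹ * φ (q.1.1, q.2)) := by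
    intro l
    have h1 : {q : (X × X) × X | (φ (q.1.2, q.2))⁻¹ * φ (q.1.1, q.2) = l} =
        ⋃ m : L, {q : (X × X) × X | φ (q.1.2, q.2) = m ∧ φ (q.1.1, q.2) = m * l} := by
      ext q
      simp only [mem_ofPred_eq, mem_iUnion]
      constructor
      · intro hq
        exact ⟨_, rfl, by rw [← hq, mul_inv_cancel_left]⟩
      · rintro ⟨m, h1, h2⟩
        rw [h1, h2, inv_mul_cancel_left]
    rw [h1]
    exact MeasurableSet.iUnion fun m => (hm1 (hφ m)).inter (hm2 (hφ (m * l)))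
  have hp1 : MeasurePreserving (fun q : (X × X) × X => (q.1.2, q.2)) ((μ.prod μ).prod μ)
      (μ.prod μ) := measurePreserving_snd.prod (MeasurePreserving.id μ)
  have hp2 : MeasurePreserving (fun q : (X × X) × X => (q.1.1, q.2)) ((μ.prod μ).prod μ)
      (μ.prod μ) := measurePreserving_fst.prod (MeasurePreserving.id μ)
  have hab : ∀ g : G, ∀ᵐ q ∂((μ.prod μ).prod μ),
      (fun q : (X × X) × X => (φ (q.1.2, q.2))⁻¹ * φ (q.1.1, q.2)) (g • q) =
        (fun (g : G) (z : X × X) => w g z.2) g q.1 *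
          (fun q : (X × X) × X => (φ (q.1.2, q.2))⁻¹ * φ (q.1.1, q.2)) q *
          (fun (g : G) (z : X × X) => (w g z.1)⁻¹) g q.1 := by
    intro g
    have e1 := hp1.quasiMeasurePreserving.ae (hφw g)
    have e2 := hp2.quasiMeasurePreserving.ae (hφw g)
    filter_upwards [e1, e2] with q h1 h2
    have h1' : w g q.2 * φ (q.1.2, q.2) = φ ((g • q).1.2, (g • q).2) * w g q.1.2 := h1
    have h2' : w g q.2 * φ (q.1.1, q.2) = φ ((g • q).1.1, (g • q).2) * w g q.1.1 := h2
    have h3 : φ ((g • q).1.2, (g • q).2) = w g q.2 * φ (q.1.2, q.2) * (w g q.1.2)⁻¹ := by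
      rw [h1', mul_inv_cancel_right]
    have h4 : φ ((g • q).1.1, (g • q).2) = w g q.2 * φ (q.1.1, q.2) * (w g q.1.1)⁻¹ := by
      rw [h2', mul_inv_cancel_right]
    show (φ ((g • q).1.2, (g • q).2))⁻¹ * φ ((g • q).1.1, (g • q).2) =
      w g q.1.2 * ((φ (q.1.2, q.2))⁻¹ * φ (q.1.1, q.2)) * (w g q.1.1)⁻¹
    rw [h3, h4]
    group
  have hmix2 : Mixing G (X × X) (μ.prod μ) := hMP G X X μ μ hmix hmix
  have hmix4 : Mixing G ((X × X) × (X × X)) ((μ.prod μ).prod (μ.prod μ)) :=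
    hMP G (X × X) (X × X) (μ.prod μ) (μ.prod μ) hmix2 hmix2
  have hfib := hFIB G (X × X) X L (μ.prod μ) μ
    (fun q : (X × X) × X => (φ (q.1.2, q.2))⁻¹ * φ (q.1.1, q.2))
    (fun (g : G) (z : X × X) => w g z.2) (fun (g : G) (z : X × X) => (w g z.1)⁻¹)
    inferInstance inferInstance hmix4 hCM hab
  -- reorder the coordinates
  have hre : MeasurePreserving (fun q : (X × X) × (X × X) => ((q.2.1, q.1.1), (q.2.2, q.1.2)))
      ((μ.prod μ).prod (μ.prod μ)) ((μ.prod μ).prod (μ.prod μ)) := by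
    have h1 := measurePreserving_prodAssoc μ μ (μ.prod μ)
    have h2 := (MeasurePreserving.id μ).prod
      ((measurePreserving_prodAssoc μ μ μ).symm MeasurableEquiv.prodAssoc)
    have h3 := (MeasurePreserving.id μ).prod
      ((Measure.measurePreserving_swap (μ := μ) (ν := μ)).prod (MeasurePreserving.id μ))
    have h4 := (MeasurePreserving.id μ).prod (measurePreserving_prodAssoc μ μ μ)
    have h5 := (measurePreserving_prodAssoc μ μ (μ.prod μ)).symm MeasurableEquiv.prodAssoc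
    have h6 := Measure.measurePreserving_swap (μ := μ.prod μ) (ν := μ.prod μ)
    exact h5.comp (h4.comp (h3.comp (h2.comp (h1.comp h6))))
  have h5 := hre.quasiMeasurePreserving.ae hfib
  have h6 := Measure.ae_ae_of_ae_prod h5
  obtain ⟨z, hz⟩ := h6.exists
  refine ⟨fun x => (φ (z.1, z.2))⁻¹ * φ (x, z.2), fun y => φ (z.1, y), ?_, ?_, ?_⟩
  · intro l
    have h1 : {x : X | (φ (z.1, z.2))⁻¹ * φ (x, z.2) = l} =
        (fun x : X => (x, z.2)) ⁻¹' {p | φ p = φ (z.1, z.2) * l} := by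
      ext x
      simp only [mem_ofPred_eq, mem_preimage]
      rw [inv_mul_eq_iff_eq_mul]
    rw [h1]
    exact measurable_prodMk_right (hφ _)
  · intro l
    exact measurable_prodMk_left (hφ l)
  · filter_upwards [hz] with p hp
    have hp' : (φ (z.1, p.2))⁻¹ * φ (p.1, p.2) = (φ (z.1, z.2))⁻¹ * φ (p.1, z.2) := hp
    rw [← hp', mul_inv_cancel_left]

end Pool.Agent.Run7.h420.TM
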